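import Mathlib
import Pool.Agent.FRC.SC
import Pool.Agent.FRC.H1A
import Pool.Agent.FRC.H2A
import Pool.Agent.FRC.H3A

open CategoryTheory CategoryTheory.Abelian

namespace Pool.Agent.Results.MP_5968e7_ag.CohDimReduction

open Pool.Agent.FRS

/-- For every number field `k` and every prime `ℓ`: the category `C_{k,ℓ}` (objects unramified
almost everywhere) has cohomological dimension `1` if and only if `Ext²(ℚ_ℓ, W) = 0` in `C_{ℚ,ℓ}`
for every simple object `W` of `C_{ℚ,ℓ}` of weight `≤ 0`. -/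
theorem result (k : Type) [Field k] [NumberField k] (ℓ : ℕ) [Fact ℓ.Prime] :
    ((∀ n, 2 ≤ n → ∀ V W : Cat k ℓ, Subsingleton (Ext.{1} V W n)) ∧
      ∃ (V W : Cat k ℓ) (x : Ext.{1} V W 1), x ≠ 0) ↔
    ∀ W : Cat ℚ ℓ, Simple W → (∃ m : ℤ, m ≤ 0 ∧ IsPure (toRep W) m) →
        Subsingleton (Ext.{1} (unitObj ℚ ℓ) W 2) := by
  have hQ : (∀ n, 2 ≤ n → ∀ V W : Cat ℚ ℓ, Subsingleton (Ext.{1} V W n)) ↔
      ∀ W : Cat ℚ ℓ, Simple W → (∃ m : ℤ, m ≤ 0 ∧ IsPure (toRep W) m) →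
        Subsingleton (Ext.{1} (unitObj ℚ ℓ) W 2) := Pool.Agent.FRC.reduction ℚ ℓ
  have hb : ∀ n, (∀ V W : Cat k ℓ, Subsingleton (Ext.{1} V W n)) ↔
      ∀ V W : Cat ℚ ℓ, Subsingleton (Ext.{1} V W n) := fun n =>
    Pool.Agent.FRC.base_field k ℓ n
  have h1 : ∃ (V W : Cat k ℓ) (x : Ext.{1} V W 1), x ≠ 0 :=
    ⟨_, _, Pool.Agent.FRC.ext_one_ne_zero k ℓ⟩
  constructor
  · intro h
    exact hQ.mp fun n hn => (hb n).mp (h.1 n hn)
  · intro h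
    exact ⟨fun n hn => (hb n).mpr (hQ.mpr h n hn), h1⟩

end Pool.Agent.Results.MP_5968e7_ag.CohDimReduction
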