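import Mathlib
import Pool.Agent.H12.Main

namespace Pool.Agent.Results.MP_5968e7_ag.ExtTwoNonzero

open Pool.Agent.H12

/-- For every number field `k` and every prime `ℓ`, with the definitions of the problem file,
`ℚ_ℓ` and `ℚ_ℓ(2)` are objects of `C_{k,ℓ}` and the Yoneda group `Ext^2` of `ℚ_ℓ` by `ℚ_ℓ(2)`
inside `C_{k,ℓ}` has a nonzero element. -/
theorem result (k : Type) [Field k] [NumberField k] (ℓ : ℕ) [Fact ℓ.Prime] :
    ∃ (hV : InC (tate k ℓ 0)) (hW : InC (tate k ℓ 2)) (x : Ext2 (tate k ℓ 0) (tate k ℓ 2)),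
      x ≠ Ext2.zero (tate k ℓ 0) (tate k ℓ 2) hV hW := by
  obtain ⟨α, β, hα, hαc, hβ, hβc, hαl, hβl, hno⟩ := exists_cocycles k ℓ
  have hE := kum_inC 1 β hβ hβc hβl
  have hF := kum_inC 0 α hα hαc hαl
  refine ⟨tate_inC 0, tate_inC 2, Quot.mk _ (cup α β hα hαc hβ hβc hE hF), fun h => ?_⟩
  refine not_good α β hα hαc hβ hβc hE hF hno (good_of_zero _ _ (1 : ℚ_[ℓ]) (fun g => ?_) _ h)
  change chi k ℓ g ^ 0 * (1 : ℚ_[ℓ]) = 1
  rw [pow_zero, mul_one]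

end Pool.Agent.Results.MP_5968e7_ag.ExtTwoNonzero
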