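import Mathlib
import Pool.Agent.EXR.STA
import Pool.Agent.EXR.FIN

open CategoryTheory.Abelian

namespace Pool.Agent.Results.MP_5968e7_ag.FrobeniusObstruction

open Pool.Agent.H12 Pool.Agent.FRS Pool.Agent.EXR

/-- For every number field `k`, every prime `ℓ` and every exact sequence `0 → W → E → V → 0` in the
category `C_{k,ℓ}` (objects unramified almost everywhere): if at some prime `𝔓 ∤ ℓ` where `E` is
unramified the sequence has no linear section that commutes with `σ`, where `σ` is a Frobenius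
element at `𝔓` or any other element that acts modulo `𝔓` by `y ↦ y ^ q`, `q > 0`, then
`Ext² (V, W(1))` is not zero in `C_{k,ℓ}`. -/
theorem result (k : Type) [Field k] [NumberField k] (ℓ : ℕ) [Fact ℓ.Prime] (W E V : Cat k ℓ)
    (i : Lin (toRep W) (toRep E)) (p : Lin (toRep E) (toRep V)) (hS : Ses i p) (𝔓 : Idl k)
    (h𝔓 : Good (toRep E) 𝔓) (q : ℕ) (hq : 0 < q) (σ : GG k) (hσ : FrobAt 𝔓 q σ)
    (hσp : ¬ SplitsAt p σ) :
    ∃ W₁ : Cat k ℓ, Tw (toRep W) (toRep W₁) ∧ ∃ x : Ext.{1} V W₁ 2, x ≠ 0 := by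
  obtain ⟨W₁, hW₁⟩ := fin_twist W
  refine ⟨W₁, hW₁, ?_⟩
  by_contra hcon
  push Not at hcon
  exact hσp (fin_split i p hS hW₁ hcon h𝔓 hq.ne' hσ)

end Pool.Agent.Results.MP_5968e7_ag.FrobeniusObstruction
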