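import Mathlib
import Pool.Agent.EXR.STB
import Pool.Agent.EXR.FIN

open CategoryTheory.Abelian

namespace Pool.Agent.Results.MP_5968e7_ag.Rigidity

open Pool.Agent.H12 Pool.Agent.FRS Pool.Agent.EXR

/-- For every number field `k`, every prime `ℓ` and every finite extension `F` of `ℚ_ℓ`: if an
object `V` of `C_{k,ℓ}` (objects unramified almost everywhere) with coefficients in `F` is
absolutely irreducible over `F` and has an `F`-linear self-extension `0 → V → E → V → 0` in
`C_{k,ℓ}` that does not split, then `Ext² (V, V(1))` is not zero in `C_{k,ℓ}`. -/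
theorem result (k : Type) [Field k] [NumberField k] (ℓ : ℕ) [Fact ℓ.Prime] (F : Type) [Field F]
    [Algebra ℚ_[ℓ] F] [FiniteDimensional ℚ_[ℓ] F] (V E : Cat k ℓ) (a : Coef F (toRep V))
    (ha : AbsIrr a) (b : Coef F (toRep E)) (i : Lin (toRep V) (toRep E))
    (p : Lin (toRep E) (toRep V)) (hS : Ses i p) (hi : FLin a b i) (hp : FLin b a p)
    (hns : ¬ ∃ s : Lin (toRep V) (toRep E), Eqv s ∧ FLin a b s ∧ ∀ v, ap p (ap s v) = v) :
    ∃ V₁ : Cat k ℓ, Tw (toRep V) (toRep V₁) ∧ ∃ x : Ext.{1} V V₁ 2, x ≠ 0 := by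
  obtain ⟨V₁, hV₁⟩ := fin_twist V
  refine ⟨V₁, hV₁, ?_⟩
  by_contra hcon
  push Not at hcon
  exact hns (fin_rigid i p hS hV₁ hcon a ha b hi hp)

end Pool.Agent.Results.MP_5968e7_ag.Rigidity
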